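import Pool.Agent.H59.TN.Fin

/-!
# Lines of orderings, unshuffles, and the typical structure of universally correlated pairs
-/

namespace Pool.Agent.Results.MP_f51d55_co.AlmostAllNested

open Pool.Agent.H45.Corr Pool.Agent.H59.TN

theorem result (T : Type) [Finite T] :
    (∀ U V : Set (LinOrd T), UnivCorr U V →
      (∀ (p : T → ℤ) (M : Set T) (hp : Sep p M) (r : ℕ) (lam : ℝ), 0 < lam →
        wsum lam r {k | lineOrd p M hp k ∈ U} * wsum lam r {k | lineOrd p M hp k ∈ V} ≤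
          wsum lam r {k | lineOrd p M hp k ∈ U ∩ V} * wsum lam r Set.univ) ∧
      ∀ b ∈ U \ V, ∀ c ∈ V \ U, ¬ Unsh b.1 c.1 ∧ ¬ Unsh c.1 b.1) ∧
    {p : Set (LinOrd T) × Set (LinOrd T) | UnivCorr p.1 p.2 ∧ (p.1 ⊆ p.2 ∨ p.2 ⊆ p.1)}.ncard =
      2 * 3 ^ (Nat.card T).factorial - 2 ^ (Nat.card T).factorial ∧
    (40 ≤ Nat.card T →
      (({p : Set (LinOrd T) × Set (LinOrd T) | UnivCorr p.1 p.2 ∧
        ¬ (p.1 ⊆ p.2 ∨ p.2 ⊆ p.1)}.ncard : ℕ) : ℝ) ≤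
      Real.exp (-(2 : ℝ) ^ (Nat.card T / 4)) * 3 ^ (Nat.card T).factorial) :=
  ⟨fun _ _ h => ⟨fun p M hp r _ hl => seg h p M hp r hl,
    fun _ hb _ hc => ⟨not_unsh h hb hc, not_unsh' h hb hc⟩⟩, nested_card T, nonnested T⟩

end Pool.Agent.Results.MP_f51d55_co.AlmostAllNested
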