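import Pool.Agent.H95.UC.Main

/-!
# Universal correlation with a simple relation `U = {x < y}`

`T` is a finite set, `x ≠ y` in `T`, `V` any set of linear orderings of `T`.  A pair `(b, c)`
consists of an ordering `b ∉ V` with `x < y` and an ordering `c ∈ V` with `y < x`.

* necessity, for all `T` and `V`: if `({x < y}, V)` is universally non-negatively correlated then
  every pair is `Good`, i.e. has a reversed triple, or both patterns `P1` and `P2`;
* sufficiency if at most one `b` and at most one `c` occur (so `V = (U \ {b}) ∪ {c}`), and if no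
  pair has both patterns `P1` and `P2` (which is always so if `T` has at most four elements).
-/

namespace Pool.Agent.Results.MP_f51d55_co.SimpleRelation

open Pool.Agent.H45.Corr Pool.Agent.H95.UC

theorem result {T : Type} [Finite T] {x y : T} (hxy : x ≠ y) (V : Set (LinOrd T)) :
    (UnivCorr {L | L.1 x y} V →
      ∀ b ∈ {b : LinOrd T | b.1 x y ∧ b ∉ V}, ∀ c ∈ {c : LinOrd T | c.1 y x ∧ c ∈ V},
        Good x y b c) ∧
    (({b : LinOrd T | b.1 x y ∧ b ∉ V}.Subsingleton ∧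
        {c : LinOrd T | c.1 y x ∧ c ∈ V}.Subsingleton) ∨
      (∀ b ∈ {b : LinOrd T | b.1 x y ∧ b ∉ V}, ∀ c ∈ {c : LinOrd T | c.1 y x ∧ c ∈ V},
        ¬ (H19.UC.P1 x y b.1 c.1 ∧ H19.UC.P2 x y b.1 c.1)) ∨
      Nat.card T ≤ 4 →
      ((∀ b ∈ {b : LinOrd T | b.1 x y ∧ b ∉ V}, ∀ c ∈ {c : LinOrd T | c.1 y x ∧ c ∈ V},
        Good x y b c) → UnivCorr {L | L.1 x y} V)) := by
  refine ⟨fun h b hb c hc => H19.UC.necessity hxy h b c hb.1 hb.2 hc.1 hc.2, ?_⟩
  have key : (∀ b ∈ {b : LinOrd T | b.1 x y ∧ b ∉ V}, ∀ c ∈ {c : LinOrd T | c.1 y x ∧ c ∈ V},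
        ¬ (H19.UC.P1 x y b.1 c.1 ∧ H19.UC.P2 x y b.1 c.1)) →
      (∀ b ∈ {b : LinOrd T | b.1 x y ∧ b ∉ V}, ∀ c ∈ {c : LinOrd T | c.1 y x ∧ c ∈ V},
        Good x y b c) → UnivCorr {L | L.1 x y} V := by
    intro h1 h2
    refine simpleRelation hxy ?_
    intro b hb hbV c hc hcV
    rcases h2 b ⟨hb, hbV⟩ c ⟨hc, hcV⟩ with h | h
    · exact h
    · exact absurd h (h1 b ⟨hb, hbV⟩ c ⟨hc, hcV⟩)
  rintro (⟨hB, hC⟩ | h | h) hG
  · rcases Set.eq_empty_or_nonempty {b : LinOrd T | b.1 x y ∧ b ∉ V} with e | ⟨b, hb⟩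
    · refine simpleRelation hxy ?_
      intro b hb hbV
      exact absurd (show b ∈ {b : LinOrd T | b.1 x y ∧ b ∉ V} from ⟨hb, hbV⟩) (by rw [e]; simp)
    rcases Set.eq_empty_or_nonempty {c : LinOrd T | c.1 y x ∧ c ∈ V} with e | ⟨c, hc⟩
    · refine simpleRelation hxy ?_
      intro b hb hbV c hc hcV
      exact absurd (show c ∈ {c : LinOrd T | c.1 y x ∧ c ∈ V} from ⟨hc, hcV⟩) (by rw [e]; simp)
    have hV : V = ({L | L.1 x y} \ {b}) ∪ {c} := by
      ext L
      simp only [Set.mem_union, Set.mem_sdiff, Set.mem_ofPred_eq, Set.mem_singleton_iff]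
      constructor
      · intro hL
        by_cases hxyL : L.1 x y
        · exact Or.inl ⟨hxyL, fun h => hb.2 (h ▸ hL)⟩
        · have hyx : L.1 y x := by
            by_contra hcon
            exact hxy (L.2.trichotomous x y hxyL hcon)
          exact Or.inr (hC ⟨hyx, hL⟩ hc)
      · rintro (⟨h1, h2⟩ | h1)
        · by_contra hL
          exact h2 (hB ⟨h1, hL⟩ hb)
        · rw [h1]; exact hc.2
    rw [hV]
    exact single_good hb.1 hc.1 (hG b hb c hc)
  · exact key h hG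
  · refine key ?_ hG
    rintro b hb c _ ⟨h1, h2⟩
    have := card_of_P1_P2 hb.1 h1 h2
    omega

end Pool.Agent.Results.MP_f51d55_co.SimpleRelation
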