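import Pool.Agent.H59.ST.Stt

/-!
# Universally correlated pairs of events given by the comparisons with one element

Let `D(x)` be the random set of the elements of `T` below `x`. An event `D(x) ∈ 𝒰` and an event
`D(y) ∈ 𝒱` are universally non-negatively correlated if and only if one of them contains the other,
or they can be written with the same centre `z`, as `D(z) ∈ 𝒰'` and `D(z) ∈ 𝒱'`, such that for all
`D ∈ 𝒰' \ 𝒱'` and `D' ∈ 𝒱' \ 𝒰'` one of the sets `D ∩ D'`, `D ∪ D'` lies in `𝒰' ∩ 𝒱'` and the other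
one lies neither in `𝒰'` nor in `𝒱'`.
-/

namespace Pool.Agent.Results.MP_f51d55_co.StarEvents

open Pool.Agent.H45.Corr Pool.Agent.H59.ST

theorem result {T : Type} [Finite T] (x y : T) (𝒰 𝒱 : Set (Set T)) :
    UnivCorr {L : LinOrd T | below x L ∈ 𝒰} {L | below y L ∈ 𝒱} ↔
      {L : LinOrd T | below x L ∈ 𝒰} ⊆ {L | below y L ∈ 𝒱} ∨
      {L : LinOrd T | below y L ∈ 𝒱} ⊆ {L | below x L ∈ 𝒰} ∨
      ∃ (z : T) (𝒰' 𝒱' : Set (Set T)),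
        {L : LinOrd T | below x L ∈ 𝒰} = {L | below z L ∈ 𝒰'} ∧
        {L : LinOrd T | below y L ∈ 𝒱} = {L | below z L ∈ 𝒱'} ∧
        ∀ D ∈ 𝒰' \ 𝒱', ∀ D' ∈ 𝒱' \ 𝒰', z ∉ D → z ∉ D' →
          (D ∩ D' ∈ 𝒰' ∩ 𝒱' ∧ D ∪ D' ∉ 𝒰' ∪ 𝒱') ∨ (D ∪ D' ∈ 𝒰' ∩ 𝒱' ∧ D ∩ D' ∉ 𝒰' ∪ 𝒱') :=
  stars x y 𝒰 𝒱

end Pool.Agent.Results.MP_f51d55_co.StarEvents
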