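import Pool.Agent.H59.ST.Asm
import Pool.Agent.H45.Corr.ThreeMain

/-!
# Merging blocks, and the universally correlated pairs after merging into three blocks

If `(U, V)` is universally non-negatively correlated then the same is true for the pair on `T'`
which one gets by putting in an ordering of `T'` ordered blocks of elements of `T` in the place of
the elements of `T'`. If `T'` has three elements, the new pair is nested, or an `XYZ` pair. For
`|T| = 3` this is also sufficient.
-/

namespace Pool.Agent.Results.MP_f51d55_co.ThreeBlocks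

open Pool.Agent.H45.Corr Pool.Agent.H59.ST

theorem result {T : Type} [Finite T] (U V : Set (LinOrd T)) :
    (UnivCorr U V → ∀ (T' : Type) (φ : T → T') (e : T → ℕ)
      (he : ∀ s t, φ s = φ t → e s = e t → s = t),
      UnivCorr {L | subst φ e he L ∈ U} {L | subst φ e he L ∈ V} ∧
      (Nat.card T' = 3 →
        {L | subst φ e he L ∈ U} ⊆ {L | subst φ e he L ∈ V} ∨
        {L | subst φ e he L ∈ V} ⊆ {L | subst φ e he L ∈ U} ∨
        ∃ x y z : T', x ≠ y ∧ x ≠ z ∧ y ≠ z ∧
          (({L | subst φ e he L ∈ U} = {L : LinOrd T' | L.1 x y} ∧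
            {L | subst φ e he L ∈ V} = {L : LinOrd T' | L.1 x z}) ∨
          ({L | subst φ e he L ∈ U} = {L : LinOrd T' | L.1 y x} ∧
            {L | subst φ e he L ∈ V} = {L : LinOrd T' | L.1 z x})))) ∧
    (Nat.card T = 3 → (UnivCorr U V ↔ U ⊆ V ∨ V ⊆ U ∨ ∃ x y z : T, x ≠ y ∧ x ≠ z ∧ y ≠ z ∧
      ((U = {L | L.1 x y} ∧ V = {L | L.1 x z}) ∨ (U = {L | L.1 y x} ∧ V = {L | L.1 z x})))) :=
  ⟨fun h _ φ e he => ⟨contraction h φ e he,
    fun hT' => (three hT' _ _).1 (contraction h φ e he)⟩, fun hT => three hT U V⟩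

end Pool.Agent.Results.MP_f51d55_co.ThreeBlocks
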